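import Pool.Agent.Q289.BG.Stm

set_option autoImplicit false

namespace Q109.BG

open MeasureTheory Set Q289.BG
open scoped ENNReal InnerProductSpace
open Pool.Agent.W695.KH (Eu EV VV)

variable {ι : Type} [Fintype ι]

/-- The sign change as a linear isometry equivalence. -/
noncomputable def sgL (σ : ι → Bool) : Eu ι ≃ₗᵢ[ℝ] Eu ι :=
  LinearIsometryEquiv.piLpCongrRight 2 fun i =>
    if σ i = true then LinearIsometryEquiv.neg ℝ else LinearIsometryEquiv.refl ℝ ℝ

theorem sgL_apply (σ : ι → Bool) (x : Eu ι) : sgL σ x = sg σ x := by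
  ext i
  simp only [sgL, sg, LinearIsometryEquiv.piLpCongrRight_apply]
  split_ifs <;> simp

theorem sg_sg (σ : ι → Bool) (x : Eu ι) : sg σ (sg σ x) = x := by
  ext i
  simp only [sg]
  split_ifs <;> simp

theorem sgL_coe (σ : ι → Bool) : (sgL σ : Eu ι → Eu ι) = sg σ := funext (sgL_apply σ)

theorem null_coord (i : ι) : volume {x : Eu ι | x i = 0} = 0 := by
  classical
  have h := Measure.addHaar_submodule (volume : Measure (Eu ι))
    (LinearMap.ker (EuclideanSpace.proj (𝕜 := ℝ) i : Eu ι →L[ℝ] ℝ).toLinearMap) (by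
      intro h
      have h1 : EuclideanSpace.single i (1 : ℝ) ∈
          LinearMap.ker (EuclideanSpace.proj (𝕜 := ℝ) i : Eu ι →L[ℝ] ℝ).toLinearMap := by
        rw [h]; exact Submodule.mem_top
      have h2 : (EuclideanSpace.single i (1 : ℝ) : Eu ι) i = 0 := h1
      simp at h2)
  exact h

theorem key [DecidableEq ι] (D : Set (Eu ι)) (hD : Sol D) (g : Eu ι → ℝ) (x : Eu ι) (hx : ∀ i, x i ≠ 0) :
    {x : Eu ι | ab x ∈ D}.indicator g x = ∑ σ : ι → Bool, (sg σ ⁻¹' D).indicator g x := by
  classical
  have hs : ∀ σ : ι → Bool, σ ≠ (fun i => decide (x i < 0)) → (sg σ ⁻¹' D).indicator g x = 0 := by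
    intro σ hσ
    apply indicator_of_notMem
    intro hmem
    apply hσ
    funext i
    have h1 := (hD.cube _ hmem i).1
    simp only [sg] at h1
    rcases hσi : σ i with _ | _
    · simp only [hσi, Bool.false_eq_true, if_false] at h1
      simp [not_lt.2 h1]
    · simp only [hσi, if_true] at h1
      have : x i < 0 := lt_of_le_of_ne (by linarith) (hx i)
      simp [this]
  rw [Finset.sum_eq_single (fun i => decide (x i < 0)) (fun σ _ h => hs σ h) (by simp)]
  have h2 : sg (fun i => decide (x i < 0)) x = ab x := by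
    ext i
    simp only [sg, ab, decide_eq_true_eq]
    split_ifs with h
    · exact (abs_of_neg h).symm
    · exact (abs_of_nonneg (not_lt.1 h)).symm
  by_cases h3 : ab x ∈ D
  · rw [indicator_of_mem (by exact h3), indicator_of_mem (by show sg _ x ∈ D; rw [h2]; exact h3)]
  · rw [indicator_of_notMem (by exact h3), indicator_of_notMem (by show sg _ x ∉ D; rw [h2]; exact h3)]

theorem chv : S_CHV := by
  intro ι _ _ D hD g hg
  have hDm : MeasurableSet D := hD.comp.isClosed.measurableSet
  have hsgc : ∀ σ : ι → Bool, Continuous (sg σ : Eu ι → Eu ι) := fun σ => by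
    rw [← sgL_coe]; exact (sgL σ).continuous
  have habc : Continuous (ab : Eu ι → Eu ι) := by
    unfold ab
    fun_prop
  have hD' : MeasurableSet {x : Eu ι | ab x ∈ D} := (hD.comp.isClosed.preimage habc).measurableSet
  have hpre : ∀ σ : ι → Bool, MeasurableSet (sg σ ⁻¹' D : Set (Eu ι)) := fun σ =>
    (hD.comp.isClosed.preimage (hsgc σ)).measurableSet
  have hcomp : ∀ σ : ι → Bool, IsCompact (sg σ ⁻¹' D : Set (Eu ι)) := fun σ => by
    rw [← sgL_coe]
    exact (sgL σ).toHomeomorph.isCompact_preimage.2 hD.comp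
  have h0 : ∀ σ : ι → Bool, ∫ y in D, g (sg σ y) = ∫ x in sg σ ⁻¹' D, g x := fun σ => by
    have h1 := (sgL σ).measurePreserving.setIntegral_preimage_emb (sgL σ).toMeasurableEquiv.measurableEmbedding
      (fun y => g (sg σ y)) D
    rw [← h1]
    simp only [sgL_coe, sg_sg]
  simp only [h0]
  rw [← integral_indicator hD']
  have h1 : ∀ σ : ι → Bool, ∫ x in sg σ ⁻¹' D, g x = ∫ x, (sg σ ⁻¹' D).indicator g x := fun σ =>
    (integral_indicator (hpre σ)).symm
  simp only [h1]
  rw [← integral_finsetSum]
  · apply integral_congr_ae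
    have hae : ∀ᵐ x : Eu ι, ∀ i, x i ≠ 0 := by
      rw [ae_all_iff]
      intro i
      have := null_coord i
      rw [ae_iff]
      simpa using this
    filter_upwards [hae] with x hx
    exact key D hD g x hx
  · intro σ _
    exact (hg.continuousOn.integrableOn_compact (hcomp σ)).integrable_indicator (hpre σ)

end Q109.BG
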